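import Pool.Agent.H18.CGR.Stmts

/-!
Row FIX of the board cgr: existence of a solution of the recursion (Banach fixed point theorem in
the space of bounded functions on the words).
-/

set_option autoImplicit false
set_option linter.unusedSectionVars false

noncomputable section

open Filter
open scoped Topology ENNReal

namespace Pool.CGR

namespace FIXH

variable {m : ℕ} {E : Type} [NormedAddCommGroup E] [NormedSpace ℂ E] [CompleteSpace E]

/-- the right hand side of the recursion for the rescaled family -/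
def op (k : Fin m → List (Fin m) → ℂ) (X : Fin m → (E →L[ℂ] E)) (i : Fin m) (u : List (Fin m))
    (g : List (Fin m) → E) : E :=
  X i (g u) - (1 / 4 : ℂ) • hd i u g - ∑' v : List (Fin m), ((4 : ℂ) ^ v.length * k i v) • g (v ++ u)

theorem norm_term (k : Fin m → List (Fin m) → ℂ) (i : Fin m) (u v : List (Fin m))
    (g : List (Fin m) → E) (C : ℝ) (hg : ∀ w, ‖g w‖ ≤ C) :
    ‖((4 : ℂ) ^ v.length * k i v) • g (v ++ u)‖ ≤ (‖k i v‖ * 4 ^ v.length) * C := by
  have h4 : ‖(4 : ℂ)‖ = 4 := by norm_num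
  rw [norm_smul, norm_mul, norm_pow, h4, mul_comm ((4 : ℝ) ^ v.length)]
  exact mul_le_mul_of_nonneg_left (hg _) (by positivity)

theorem summ {k : Fin m → List (Fin m) → ℂ} (hk : Kb k) (i : Fin m) (u : List (Fin m))
    (g : List (Fin m) → E) (C : ℝ) (hg : ∀ w, ‖g w‖ ≤ C) :
    Summable fun v : List (Fin m) => ((4 : ℂ) ^ v.length * k i v) • g (v ++ u) :=
  Summable.of_norm_bounded ((hk i).1.mul_right C) fun v => norm_term k i u v g C hg

theorem norm_hd (i : Fin m) (u : List (Fin m)) (g : List (Fin m) → E) (C : ℝ) (hC : 0 ≤ C)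
    (hg : ∀ w, ‖g w‖ ≤ C) : ‖hd i u g‖ ≤ C := by
  cases u with
  | nil => simpa [hd] using hC
  | cons a u' =>
    simp only [hd]
    split_ifs
    · exact hg _
    · simpa using hC

theorem hd_sub (i : Fin m) (u : List (Fin m)) (g g' : List (Fin m) → E) :
    hd i u (fun w => g w - g' w) = hd i u g - hd i u g' := by
  cases u with
  | nil => simp [hd]
  | cons a u' =>
    simp only [hd]
    split_ifs
    · rfl
    · simp

theorem norm_op {k : Fin m → List (Fin m) → ℂ} (hk : Kb k) (X : Fin m → (E →L[ℂ] E))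
    (hX : ∀ i, ‖X i‖ ≤ 5 / 2) (i : Fin m) (u : List (Fin m)) (g : List (Fin m) → E) (C : ℝ)
    (hC : 0 ≤ C) (hg : ∀ w, ‖g w‖ ≤ C) : ‖op k X i u g‖ ≤ 3 * C := by
  have h1 : ‖X i (g u)‖ ≤ 5 / 2 * C :=
    (X i).le_of_opNorm_le_of_le (hX i) (hg u)
  have h2 : ‖(1 / 4 : ℂ) • hd i u g‖ ≤ 1 / 4 * C := by
    rw [norm_smul]
    have : ‖(1 / 4 : ℂ)‖ = 1 / 4 := by norm_num
    rw [this]
    exact mul_le_mul_of_nonneg_left (norm_hd i u g C hC hg) (by norm_num)
  have h3 : ‖∑' v : List (Fin m), ((4 : ℂ) ^ v.length * k i v) • g (v ++ u)‖ ≤ 1 / 4 * C := by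
    have h := tsum_of_norm_bounded ((hk i).1.mul_right C).hasSum
      fun v => norm_term k i u v g C hg
    refine h.trans ?_
    rw [tsum_mul_right]
    exact mul_le_mul_of_nonneg_right (hk i).2 hC
  calc ‖op k X i u g‖ ≤ ‖X i (g u) - (1 / 4 : ℂ) • hd i u g‖ +
        ‖∑' v : List (Fin m), ((4 : ℂ) ^ v.length * k i v) • g (v ++ u)‖ := norm_sub_le _ _
    _ ≤ ‖X i (g u)‖ + ‖(1 / 4 : ℂ) • hd i u g‖ +
        ‖∑' v : List (Fin m), ((4 : ℂ) ^ v.length * k i v) • g (v ++ u)‖ := by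
          gcongr; exact norm_sub_le _ _
    _ ≤ 3 * C := by linarith

theorem op_sub {k : Fin m → List (Fin m) → ℂ} (hk : Kb k) (X : Fin m → (E →L[ℂ] E))
    (i : Fin m) (u : List (Fin m)) (g g' : List (Fin m) → E) (C C' : ℝ)
    (hg : ∀ w, ‖g w‖ ≤ C) (hg' : ∀ w, ‖g' w‖ ≤ C') :
    op k X i u g - op k X i u g' = op k X i u (fun w => g w - g' w) := by
  unfold op
  rw [hd_sub]
  have h : (∑' v : List (Fin m), ((4 : ℂ) ^ v.length * k i v) • (g (v ++ u) - g' (v ++ u))) =
      (∑' v : List (Fin m), ((4 : ℂ) ^ v.length * k i v) • g (v ++ u)) -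
      ∑' v : List (Fin m), ((4 : ℂ) ^ v.length * k i v) • g' (v ++ u) := by
    rw [← (summ hk i u g C hg).tsum_sub (summ hk i u g' C' hg')]
    exact tsum_congr fun v => smul_sub _ _ _
  rw [h, map_sub, smul_sub]
  abel

/-- the fixed point map -/
def phi (k : Fin m → List (Fin m) → ℂ) (X : Fin m → (E →L[ℂ] E)) (e : E)
    (g : List (Fin m) → E) : List (Fin m) → E
  | [] => e
  | i :: u => (1 / 4 : ℂ) • op k X i u g

abbrev Sp (m : ℕ) (E : Type) [NormedAddCommGroup E] : Type := lp (fun _ : List (Fin m) => E) ∞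

theorem norm_le (g : Sp m E) (w : List (Fin m)) : ‖g w‖ ≤ ‖g‖ :=
  lp.norm_apply_le_norm ENNReal.top_ne_zero g w

theorem norm_phi {k : Fin m → List (Fin m) → ℂ} (hk : Kb k) (X : Fin m → (E →L[ℂ] E))
    (hX : ∀ i, ‖X i‖ ≤ 5 / 2) (e : E) (g : List (Fin m) → E) (C : ℝ)
    (hC : 0 ≤ C) (hg : ∀ w, ‖g w‖ ≤ C) (w : List (Fin m)) : ‖phi k X e g w‖ ≤ ‖e‖ + C := by
  cases w with
  | nil => simpa [phi] using hC
  | cons i u =>
    simp only [phi]
    rw [norm_smul]
    have h1 : ‖(1 / 4 : ℂ)‖ = 1 / 4 := by norm_num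
    rw [h1]
    have h2 := norm_op hk X hX i u g C hC hg
    have h3 := norm_nonneg e
    linarith

theorem mem_phi {k : Fin m → List (Fin m) → ℂ} (hk : Kb k) (X : Fin m → (E →L[ℂ] E))
    (hX : ∀ i, ‖X i‖ ≤ 5 / 2) (e : E) (g : Sp m E) :
    Memℓp (phi k X e (fun w => g w)) ∞ := by
  rw [memℓp_infty_iff]
  refine ⟨‖e‖ + ‖g‖, ?_⟩
  rintro _ ⟨w, rfl⟩
  exact norm_phi hk X hX e (fun w => g w) ‖g‖ (norm_nonneg _) (norm_le g) w

theorem exists_fixed {k : Fin m → List (Fin m) → ℂ} (hk : Kb k) (X : Fin m → (E →L[ℂ] E))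
    (hX : ∀ i, ‖X i‖ ≤ 5 / 2) (e : E) :
    ∃ (g : List (Fin m) → E) (C : ℝ), (∀ w, ‖g w‖ ≤ C) ∧ ∀ w, g w = phi k X e g w := by
  let Φ : Sp m E → Sp m E := fun g => ⟨phi k X e (fun w => g w), mem_phi hk X hX e g⟩
  have hΦ : ContractingWith (3 / 4) Φ := by
    refine ⟨?_, LipschitzWith.of_dist_le_mul fun g g' => ?_⟩
    · rw [← NNReal.coe_lt_coe]; norm_num
    · rw [dist_eq_norm, dist_eq_norm]
      refine lp.norm_le_of_forall_le (by positivity) fun w => ?_
      have hc : ((3 / 4 : NNReal) : ℝ) = 3 / 4 := by norm_num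
      rw [hc]
      change ‖phi k X e (fun w => g w) w - phi k X e (fun w => g' w) w‖ ≤ 3 / 4 * ‖g - g'‖
      cases w with
      | nil => simp only [phi, sub_self, norm_zero]; positivity
      | cons i u =>
        simp only [phi]
        rw [← smul_sub, op_sub hk X i u (fun w => g w) (fun w => g' w) ‖g‖ ‖g'‖ (norm_le g)
          (norm_le g'), norm_smul]
        have h1 : ‖(1 / 4 : ℂ)‖ = 1 / 4 := by norm_num
        rw [h1]
        have h2 := norm_op hk X hX i u (fun w => g w - g' w) ‖g - g'‖ (norm_nonneg _)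
          (fun w => norm_le (g - g') w)
        linarith
  have hfix := hΦ.fixedPoint_isFixedPt
  set g := ContractingWith.fixedPoint Φ hΦ with hg
  refine ⟨fun w => g w, ‖g‖, norm_le g, fun w => ?_⟩
  have h : (Φ g) w = g w := by rw [hfix]
  exact h.symm

end FIXH

open FIXH in
theorem fix_thm : FIXStmt := by
  intro m k hk E _ _ _ X e hX
  obtain ⟨g, C, hC, hg⟩ := exists_fixed hk X hX e
  have hC0 : 0 ≤ C := (norm_nonneg _).trans (hC [])
  refine ⟨fun u => ((4 : ℂ) ^ u.length) • g u, ?_, ⟨C, fun u => ?_⟩, fun i u => ?_⟩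
  · change ((4 : ℂ) ^ 0) • g [] = e
    rw [hg []]
    simp [phi]
  · change ‖((4 : ℂ) ^ u.length) • g u‖ ≤ C * 4 ^ u.length
    rw [norm_smul, norm_pow]
    have h4 : ‖(4 : ℂ)‖ = 4 := by norm_num
    rw [h4, mul_comm]
    exact mul_le_mul_of_nonneg_right (hC u) (by positivity)
  · have h1 : hd i u (fun u => ((4 : ℂ) ^ u.length) • g u) =
        ((4 : ℂ) ^ u.length) • ((1 / 4 : ℂ) • hd i u g) := by
      cases u with
      | nil => simp [hd]
      | cons a u' =>
        simp only [hd, List.length_cons]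
        split_ifs
        · rw [smul_smul, pow_succ]
          congr 1
          ring
        · simp
    have h2 : (∑' v : List (Fin m), k i v • (((4 : ℂ) ^ (v ++ u).length) • g (v ++ u))) =
        ((4 : ℂ) ^ u.length) •
          ∑' v : List (Fin m), ((4 : ℂ) ^ v.length * k i v) • g (v ++ u) := by
      rw [← tsum_const_smul'']
      refine tsum_congr fun v => ?_
      rw [smul_smul, smul_smul, List.length_append, pow_add]
      congr 1
      ring
    have h3 : ((4 : ℂ) ^ (i :: u).length) • g (i :: u) = ((4 : ℂ) ^ u.length) • op k X i u g := by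
      rw [hg (i :: u)]
      simp only [phi, List.length_cons]
      rw [smul_smul, pow_succ]
      congr 1
      ring
    change X i (((4 : ℂ) ^ u.length) • g u) = ((4 : ℂ) ^ (i :: u).length) • g (i :: u) +
      hd i u (fun u => ((4 : ℂ) ^ u.length) • g u) +
      ∑' v : List (Fin m), k i v • (((4 : ℂ) ^ (v ++ u).length) • g (v ++ u))
    rw [h1, h2, h3, ← smul_add, ← smul_add, map_smul]
    congr 1
    unfold op
    abel

end Pool.CGR
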